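import Pool.Agent.Helper617.FS.Mod5

/-!
There is a model of `RCA₀` in which the free set principle for pairs and separation for `Σ⁰₁`
formulas hold and the bounding scheme for `Σ⁰₂` formulas fails. Over `RCA₀` the separation scheme
is equivalent to weak König's lemma (Simpson, Subsystems of second order arithmetic, Lemma
IV.4.4). Hence `WKL₀ + FS(2)` does not prove `BΣ⁰₂`.

The structure is the structure `PP` of `Pool.Agent.Helper617.FS`: its numbers are a cut in a
nonstandard model, its sets are the traces of the internal sets on the cut. To separate two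
disjoint `Σ⁰₁` sets take the trace of the internal set of the numbers for which an internal
witness of the first formula (possibly beyond the cut) comes before all the witnesses of the
second formula.
-/

namespace Pool.Agent.Results.MP_3ec3f9_lc.FreeSetAndSeparation

open Filter Pool.Agent.Helper617 Pool.Agent.Helper617.RM Pool.Agent.Helper617.FS

universe u

/-- Separation for `Σ⁰₁` formulas: if no number satisfies both `∃ k, θ₀(k, n)` and
`∃ k, θ₁(k, n)` (`θ₀`, `θ₁` are `Δ⁰₀` formulas with number and set parameters), then some set of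
the structure contains all the `n` with `∃ k, θ₀(k, n)` and no `n` with `∃ k, θ₁(k, n)`. -/
def SigmaOneSeparation (N : L2Structure.{u}) : Prop :=
  ∀ (θ₀ θ₁ : Delta0 N) (v : ℕ → N.M),
    (∀ n, ¬ ((∃ k, θ₀.Holds (RM.cons k (RM.cons n v))) ∧
      ∃ k, θ₁.Holds (RM.cons k (RM.cons n v)))) →
    ∃ X ∈ N.Sets, ∀ n, ((∃ k, θ₀.Holds (RM.cons k (RM.cons n v))) → n ∈ X) ∧
      ((∃ k, θ₁.Holds (RM.cons k (RM.cons n v))) → n ∉ X)

/-- the code of the separating set -/
noncomputable def XC (θ₀ θ₁ : Delta0 PP) (v : ℕ → PP.M) : Cd :=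
  .setc topC (cEx (.lift topC) (cAnd (c2 θ₀ v .var (.lift .var))
    (cAll (cAdd .var (.nat 1)) (cNot (c2 θ₁ v .var (.lift (.lift .var)))))))

theorem mem_XC (θ₀ θ₁ : Delta0 PP) (v : ℕ → PP.M) (t z : ℕ) :
    z ∈ dec (E (XC θ₀ θ₁ v) t) ↔ z < TT t + 1 ∧ ∃ k < TT t + 1, T2 θ₀ v t k z ∧
      ∀ k' < k + 1, ¬ T2 θ₁ v t k' z := by
  unfold E XC
  rw [mem_setc, ev_topC, tr_cEx]
  simp only [tr_cAnd, tr_cAll, tr_cNot, tr_c2, ev_lift, ev_var, consN_zero, consN_succ, ev_cAdd,
    ev_nat, ev_topC]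

/-- witnesses below an element of the structure -/
theorem wit2 (θ : Delta0 PP) (v : ℕ → PP.M) (b n : PP.M)
    (h : Ev fun t => ∃ x < rp b t + 1, T2 θ v t x (rp n t)) :
    ∃ a, θ.Holds (RM.cons a (RM.cons n v)) := by
  have hbd : Bdd (cAdd (rc b) (.nat 1)) := bdd_add (rc_bdd b) (bdd_nat 1)
  have hE : ∀ t, E (cAdd (rc b) (.nat 1)) t = rp b t + 1 := fun t => by
    show ev _ _ _ = _
    rw [ev_cAdd]; rfl
  obtain ⟨a, ha⟩ := wit (cAdd (rc b) (.nat 1)) (c2 θ v .var (.clo (rc n))) hbd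
    (h.mono fun t ht => by
      obtain ⟨x, hx, hx'⟩ := ht
      refine ⟨x, by rw [hE]; exact hx, ?_⟩
      rw [tr_c2]
      exact hx')
  refine ⟨a, (los2 θ v a n).2 (ha.mono fun t ht => ?_)⟩
  have h1 := ht.2.1
  rw [tr_c2] at h1
  exact h1

theorem separation : SigmaOneSeparation PP := by
  intro θ₀ θ₁ v hdis
  refine ⟨{x | Ev fun t => rp x t ∈ dec (E (XC θ₀ θ₁ v) t)}, ⟨XC θ₀ θ₁ v, fun _ => Iff.rfl⟩,
    fun n => ⟨?_, ?_⟩⟩
  · rintro ⟨k, hk⟩
    have h1 := (los2 θ₀ v k n).1 hk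
    have h2 : Ev fun t => ∀ k' < rp k t + 1, ¬ T2 θ₁ v t k' (rp n t) := by
      by_contra hcon
      rw [← Ev.not] at hcon
      refine hdis n ⟨⟨k, hk⟩, wit2 θ₁ v k n (hcon.mono fun t ht => ?_)⟩
      push Not at ht
      exact ht
    show Ev fun t => rp n t ∈ dec (E (XC θ₀ θ₁ v) t)
    refine (h1.and h2).mono3 (rp_top n) (rp_top k) fun t h3 h4 h5 => ?_
    rw [mem_XC]
    exact ⟨by omega, rp k t, by omega, h3.1, h3.2⟩
  · rintro ⟨k, hk⟩ hn
    have hn' : Ev fun t => rp n t ∈ dec (E (XC θ₀ θ₁ v) t) := hn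
    have h1 := (los2 θ₁ v k n).1 hk
    refine hdis n ⟨wit2 θ₀ v k n (h1.mono2 hn' fun t h2 h3 => ?_), ⟨k, hk⟩⟩
    rw [mem_XC] at h3
    obtain ⟨_, j, _, h4, h5⟩ := h3
    refine ⟨j, ?_, h4⟩
    by_contra hcon
    exact h5 _ (by omega) h2

/-- **Main theorem.** There is a structure for second-order arithmetic which is a model of
`RCA₀`, of separation for `Σ⁰₁` formulas (that is, of `WKL₀`) and of the free set principle for
pairs `FS(2)`, and in which the bounding scheme `BΣ⁰₂` fails. -/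
theorem result : ∃ N : L2Structure.{0}, IsModelRCA0 N ∧ SigmaOneSeparation N ∧
    FreeSetPairs N ∧ ¬ SigmaTwoBounding N :=
  ⟨PP, isModel, separation, freeSet, not_bounding⟩

end Pool.Agent.Results.MP_3ec3f9_lc.FreeSetAndSeparation
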